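import Mathlib

/-!
# `y² + x² y + z² x + 1 = 0` has `k`-large integer solutions for every `k`

Full affirmative answer to Q1 of MP_b003da_nt.

If `p² - 2 v² = 7` (infinitely many solutions, e.g. `(3,1), (5,3), (13,9), ...`; `p` and `v` are odd)
then `x = v² + 4`, `z = v (v² + 5) / 2`, `y = (p (v² + 6) - (v² + 4)²) / 2` are integers
and `y² + x² y + z² x + 1 = 0`: indeed `(2y + x²)² + 4 x z² = x⁴ - 4`.
-/

set_option autoImplicit false

namespace Pool.Agent.Results.MP_b003da_nt.LargeSolutions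

/-- Solutions of `p² - 2 v² = 7` with `p = 2q + 1`, `v = 2w + 1` and `w` large. -/
theorem pell (n : ℕ) : ∃ q w : ℤ, (n : ℤ) ≤ w ∧ 0 ≤ q ∧
    (2 * q + 1) ^ 2 = 2 * (2 * w + 1) ^ 2 + 7 := by
  induction n with
  | zero => exact ⟨1, 0, by norm_num, by norm_num, by norm_num⟩
  | succ n ih =>
    obtain ⟨q, w, hw, hq, h⟩ := ih
    refine ⟨3 * q + 4 * w + 3, 2 * q + 3 * w + 2, ?_, ?_, ?_⟩
    · push_cast
      have : (0 : ℤ) ≤ n := by positivity
      linarith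
    · have : (0 : ℤ) ≤ n := by positivity
      linarith
    · linear_combination h

/-- **Q1 of MP_b003da_nt, answer: yes.** For every `k` the equation
`y² + x² y + z² x + 1 = 0` has an integer solution with `min(|x|, |y|, |z|) ≥ k`. -/
theorem result : ∀ k : ℕ, ∃ x y z : ℤ,
    y ^ 2 + x ^ 2 * y + z ^ 2 * x + 1 = 0 ∧ (k : ℤ) ≤ min |x| (min |y| |z|) := by
  intro k
  obtain ⟨q, w, hw, hq, h⟩ := pell (k + 2)
  push_cast at hw
  have hk : (0 : ℤ) ≤ k := by positivity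
  have hw2 : (2 : ℤ) ≤ w := by linarith
  -- `p < 2 v`
  have hp : 2 * q + 1 ≤ 2 * (2 * w + 1) := by
    nlinarith [sq_nonneg (2 * q + 1 - 2 * (2 * w + 1))]
  refine ⟨(2 * w + 1) ^ 2 + 4,
    4 * q * (w ^ 2 + w) + 7 * q - 18 * (w ^ 2 + w) - 8 * (w ^ 2 + w) ^ 2 - 9,
    (2 * w + 1) * (2 * w ^ 2 + 2 * w + 3), ?_, ?_⟩
  · have h2 : q ^ 2 + q = 2 * (w ^ 2 + w) + 2 := by nlinarith [h]
    linear_combination (4 * (w ^ 2 + w) + 7) ^ 2 * h2
  · have hx : (k : ℤ) ≤ |(2 * w + 1) ^ 2 + 4| := by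
      refine le_trans ?_ (le_abs_self _)
      nlinarith
    have hz : (k : ℤ) ≤ |(2 * w + 1) * (2 * w ^ 2 + 2 * w + 3)| := by
      refine le_trans ?_ (le_abs_self _)
      nlinarith [mul_nonneg (by linarith : (0 : ℤ) ≤ w) (by nlinarith : (0 : ℤ) ≤ 2 * w ^ 2 + 2 * w + 3)]
    have hy : (k : ℤ) ≤ |4 * q * (w ^ 2 + w) + 7 * q - 18 * (w ^ 2 + w) - 8 * (w ^ 2 + w) ^ 2 - 9| := by
      refine le_trans ?_ (neg_le_abs _)
      have hq2 : q ≤ 2 * w := by linarith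
      have hh : (0 : ℤ) ≤ w ^ 2 + w := by nlinarith
      have h1 : 4 * q * (w ^ 2 + w) ≤ 4 * (2 * w) * (w ^ 2 + w) := by nlinarith
      nlinarith [mul_nonneg hh hh, mul_nonneg (by linarith : (0:ℤ) ≤ w - 2) hh]
    exact le_min hx (le_min hy hz)

end Pool.Agent.Results.MP_b003da_nt.LargeSolutions
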